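import Pool.Agent.H17.UN.Tow

set_option autoImplicit false

open Polynomial
open Pool.Agent.H17.UN

namespace Pool.Agent.H64.UN

section

variable {K L : Type} [Field K] [Field L] [Algebra K L] {F Kb Ω : IntermediateField K L} {m : ℕ}

theorem mon_one {r : ℕ} (t : Fin r → Lˣ) : mon t (1 : (Fb F Kb)ˣ) 0 = 1 := by
  simp [mon]

theorem mon_mul {r : ℕ} (t : Fin r → Lˣ) (f g : (Fb F Kb)ˣ) (n n' : Fin r → ℤ) :
    mon t (f * g) (n + n') = mon t f n * mon t g n' := by
  rw [mon, mon, mon, map_mul, mul_mul_mul_comm, ← Finset.prod_mul_distrib]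
  congr 1
  exact Finset.prod_congr rfl fun j _ => zpow_add _ _ _

theorem mon_zpow {r : ℕ} (t : Fin r → Lˣ) (f : (Fb F Kb)ˣ) (n : Fin r → ℤ) (k : ℤ) :
    mon t (f ^ k) (k • n) = mon t f n ^ k := by
  rw [mon, mon, map_zpow, mul_zpow, ← Finset.prod_zpow]
  congr 1
  refine Finset.prod_congr rfl fun j _ => ?_
  rw [← zpow_mul, Pi.smul_apply, smul_eq_mul, mul_comm]

theorem mon_prod {r : ℕ} (t : Fin r → Lˣ) {ι : Type} (s : Finset ι) (f : ι → (Fb F Kb)ˣ)
    (N : ι → Fin r → ℤ) (n : ι → ℤ) :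
    mon t (∏ j ∈ s, f j ^ n j) (∑ j ∈ s, n j • N j) = ∏ j ∈ s, mon t (f j) (N j) ^ n j := by
  classical
  induction s using Finset.induction_on with
  | empty => simp [mon_one]
  | insert a s ha ih =>
    rw [Finset.prod_insert ha, Finset.sum_insert ha, Finset.prod_insert ha, mon_mul, mon_zpow, ih]

variable {A : Fin m → Subalgebra Kb (Fb F Kb)}

theorem ord_one (v : PrimeDivisor A) : v.ord 1 = 0 := by
  have h := v.ord_mul 1 1 one_ne_zero one_ne_zero
  rw [mul_one] at h
  omega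

/-- the order as a homomorphism -/
noncomputable def oh (v : PrimeDivisor A) : (Fb F Kb)ˣ →* Multiplicative ℤ where
  toFun f := Multiplicative.ofAdd (v.ord (f : Fb F Kb))
  map_one' := by
    rw [Units.val_one, ord_one]
    rfl
  map_mul' f g := by
    rw [Units.val_mul, v.ord_mul _ _ f.ne_zero g.ne_zero]
    rfl

theorem oh_apply (v : PrimeDivisor A) (f : (Fb F Kb)ˣ) :
    (oh v f).toAdd = v.ord (f : Fb F Kb) := rfl

theorem ord_mul' (v : PrimeDivisor A) (f g : (Fb F Kb)ˣ) :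
    v.ord ((f * g : (Fb F Kb)ˣ) : Fb F Kb) = v.ord (f : Fb F Kb) + v.ord (g : Fb F Kb) := by
  rw [← oh_apply, map_mul]
  rfl

theorem ord_zpow' (v : PrimeDivisor A) (f : (Fb F Kb)ˣ) (k : ℤ) :
    v.ord ((f ^ k : (Fb F Kb)ˣ) : Fb F Kb) = k * v.ord (f : Fb F Kb) := by
  rw [← oh_apply, map_zpow, toAdd_zpow, oh_apply, smul_eq_mul]

theorem dn_mul {r : ℕ} (D : Fin r → PrimeDivisor A) (f g : (Fb F Kb)ˣ) (n n' : Fin r → ℤ)
    (v : PrimeDivisor A) : dn D (f * g) (n + n') v = dn D f n v + dn D g n' v := by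
  classical
  rw [dn, dn, dn, ord_mul']
  have h : ∑ j, (if v = D j then (n + n') j else 0) =
      (∑ j, if v = D j then n j else 0) + ∑ j, if v = D j then n' j else 0 := by
    rw [← Finset.sum_add_distrib]
    refine Finset.sum_congr rfl fun j _ => ?_
    split_ifs
    · rfl
    · rfl
  rw [h]
  ring

theorem dn_zpow {r : ℕ} (D : Fin r → PrimeDivisor A) (f : (Fb F Kb)ˣ) (n : Fin r → ℤ) (k : ℤ)
    (v : PrimeDivisor A) : dn D (f ^ k) (k • n) v = k * dn D f n v := by
  rw [dn, dn, ord_zpow', mul_add, Finset.mul_sum]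
  congr 1
  refine Finset.sum_congr rfl fun j _ => ?_
  split_ifs
  · rfl
  · rw [mul_zero]

theorem dn_one {r : ℕ} (D : Fin r → PrimeDivisor A) (v : PrimeDivisor A) :
    dn D (1 : (Fb F Kb)ˣ) 0 v = 0 := by
  rw [dn, Units.val_one, ord_one]
  simp

theorem dn_prod {r : ℕ} (D : Fin r → PrimeDivisor A) {ι : Type} (s : Finset ι)
    (f : ι → (Fb F Kb)ˣ) (N : ι → Fin r → ℤ) (n : ι → ℤ) (v : PrimeDivisor A) :
    dn D (∏ j ∈ s, f j ^ n j) (∑ j ∈ s, n j • N j) v = ∑ j ∈ s, n j * dn D (f j) (N j) v := by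
  classical
  induction s using Finset.induction_on with
  | empty => simp [dn_one]
  | insert a s ha ih =>
    rw [Finset.prod_insert ha, Finset.sum_insert ha, Finset.sum_insert ha, dn_mul, dn_zpow, ih]

end

theorem pf_SGM (hIMG : T_IMG) (hVAL : T_VAL) : T_SGM := by
  classical
  intro K L _ _ _ F Kb Ω m A i₀ φ r t D hB hS σ f n
  obtain ⟨hV1, hV2, hV3, hV4, hV5⟩ := hVAL K L F Kb Ω m A i₀ φ hB
  choose g N hg1 hg2 hg3 using hS.gal σ
  have hσf : (⟨σ ((f : Fb F Kb) : L), hB.fb σ _⟩ : Fb F Kb) ≠ 0 := by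
    intro h
    have h1 : σ ((f : Fb F Kb) : L) = 0 := congrArg Subtype.val h
    rw [← map_zero σ] at h1
    have h2 : ((f : Fb F Kb) : L) = 0 := σ.injective h1
    exact f.ne_zero (by exact_mod_cast h2)
  set fs : (Fb F Kb)ˣ := Units.mk0 _ hσf with hfs
  have hfsL : (((fs : (Fb F Kb)ˣ) : Fb F Kb) : L) = σ ((f : Fb F Kb) : L) := rfl
  refine ⟨fs * ∏ j, g j ^ n j, 0 + ∑ j, n j • N j, ?_, ?_, ?_⟩
  · rw [mon_mul, mon_prod, mon, map_mul, map_prod]
    have e1 : Units.map (σ : L →* L) (Units.map (algebraMap (Fb F Kb) L : Fb F Kb →* L) f) =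
        mon t fs 0 := by
      apply Units.ext
      simp only [mon, Pi.zero_apply, zpow_zero, Finset.prod_const_one, mul_one, Units.coe_map]
      exact hfsL.symm
    rw [e1]
    congr 1
    refine Finset.prod_congr rfl fun j _ => ?_
    rw [map_zpow, hg1 j]
  · intro v v' hv
    rw [dn_mul, dn_prod]
    have e1 : dn D fs 0 v' = v'.ord (fs : Fb F Kb) := by
      rw [dn]
      simp
    have e2 : v'.ord (fs : Fb F Kb) = v.ord (f : Fb F Kb) := hv (f : Fb F Kb) (fs : Fb F Kb) hfsL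
    rw [e1, e2, dn]
    congr 1
    refine Finset.sum_congr rfl fun j _ => ?_
    rw [← hg3 j v v' hv, dl]
    split_ifs
    · rw [mul_one]
    · rw [mul_zero]
  · intro c c' hc hval
    have h1 : Val φ (fs : Fb F Kb) c' := hV5 σ f fs c c' hfsL hc hval
    have hone : Val φ (1 : Fb F Kb) 1 := by
      have h := hV4 1
      rwa [map_one] at h
    have hpow : ∀ (x : Fb F Kb), Val φ x 1 → ∀ k : ℕ, Val φ (x ^ k) 1 := by
      intro x hx k
      induction k with
      | zero => rw [pow_zero]; exact hone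
      | succ k ih =>
        rw [pow_succ]
        have h := hV2 _ _ _ _ ih hx
        rwa [mul_one] at h
    have hinv : ∀ (x : Fb F Kb), Val φ x 1 → Val φ x⁻¹ 1 := by
      intro x hx
      have h := hV3 x 1 one_ne_zero hx
      rwa [inv_one] at h
    have hz : ∀ (x : Fb F Kb), Val φ x 1 → ∀ k : ℤ, Val φ (x ^ k) 1 := by
      intro x hx k
      cases k with
      | ofNat k =>
        rw [Int.ofNat_eq_natCast, zpow_natCast]
        exact hpow x hx k
      | negSucc k =>
        rw [zpow_negSucc]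
        exact hinv _ (hpow x hx _)
    have hp : ∀ s : Finset (Fin r), Val φ ((∏ j ∈ s, g j ^ n j : (Fb F Kb)ˣ) : Fb F Kb) 1 := by
      intro s
      induction s using Finset.induction_on with
      | empty =>
        rw [Finset.prod_empty, Units.val_one]
        exact hone
      | insert a s ha ih =>
        rw [Finset.prod_insert ha, Units.val_mul, Units.val_zpow_eq_zpow_val]
        have h := hV2 _ _ _ _ (hz _ (hg2 a) (n a)) ih
        rwa [mul_one] at h
    have h := hV2 _ _ _ _ h1 (hp Finset.univ)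
    rw [mul_one] at h
    rw [Units.val_mul]
    exact h

end Pool.Agent.H64.UN
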