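import Pool.Agent.H17.UN.Tow

set_option autoImplicit false

open Polynomial
open Pool.Agent.H17.UN

namespace Pool.Agent.H64.UN

theorem pf_VAL : T_VAL := by
  intro K L _ _ _ F Kb Ω m A i₀ φ hB
  refine ⟨?_, ?_, ?_, ?_, ?_⟩
  · rintro f c c' ⟨a, b, hb, hab, hc⟩ ⟨a', b', hb', hab', hc'⟩
    have h1 : a * b' = a' * b := by
      apply Subtype.ext
      push_cast
      rw [← hab, ← hab']
      ring
    have h2 := congrArg φ h1
    rw [map_mul, map_mul, hc, hc'] at h2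
    have h3 : (c - c') * (φ b * φ b') = 0 := by linear_combination h2
    rcases mul_eq_zero.1 h3 with h4 | h4
    · exact sub_eq_zero.1 h4
    · exact absurd h4 (mul_ne_zero hb hb')
  · rintro f f' c c' ⟨a, b, hb, hab, hc⟩ ⟨a', b', hb', hab', hc'⟩
    refine ⟨a * a', b * b', ?_, ?_, ?_⟩
    · rw [map_mul]
      exact mul_ne_zero hb hb'
    · push_cast
      rw [← hab, ← hab']
      ring
    · rw [map_mul, map_mul, hc, hc']
      ring
  · rintro f c hc0 ⟨a, b, hb, hab, hc⟩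
    have ha : φ a ≠ 0 := by
      rw [hc]
      exact mul_ne_zero hc0 hb
    have hf : f ≠ 0 := by
      rintro rfl
      rw [zero_mul] at hab
      have h0 : a = 0 := by
        apply Subtype.ext
        rw [← hab]
        rfl
      exact ha (by rw [h0, map_zero])
    refine ⟨b, a, ha, ?_, ?_⟩
    · rw [← hab, ← mul_assoc, inv_mul_cancel₀ hf, one_mul]
    · rw [hc, ← mul_assoc, inv_mul_cancel₀ hc0, one_mul]
  · intro c
    refine ⟨algebraMap Kb (A i₀) c, 1, ?_, ?_, ?_⟩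
    · rw [map_one]
      exact one_ne_zero
    · rw [OneMemClass.coe_one, mul_one]
      rfl
    · rw [map_one, mul_one, AlgHom.commutes]
      rfl
  · rintro σ f f' c c' hf hc ⟨a, b, hb, hab, hac⟩
    have hsa : σ ((a : Fb F Kb) : L) ∈ Fb F Kb := hB.fb σ _
    have hsb : σ ((b : Fb F Kb) : L) ∈ Fb F Kb := hB.fb σ _
    have ha' : (⟨_, hsa⟩ : Fb F Kb) ∈ A i₀ := hB.st σ i₀ (a : Fb F Kb) ⟨_, hsa⟩ rfl a.2
    have hb' : (⟨_, hsb⟩ : Fb F Kb) ∈ A i₀ := hB.st σ i₀ (b : Fb F Kb) ⟨_, hsb⟩ rfl b.2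
    have ea := hB.eqv σ a ⟨_, ha'⟩ rfl
    have eb := hB.eqv σ b ⟨_, hb'⟩ rfl
    refine ⟨⟨_, ha'⟩, ⟨_, hb'⟩, ?_, ?_, ?_⟩
    · intro h0
      rw [h0] at eb
      apply hb
      have h1 : σ ((φ b : Kb) : L) = 0 := by
        rw [← eb]
        rfl
      have h2 : ((φ b : Kb) : L) = 0 := by
        rw [← map_zero σ] at h1
        exact σ.injective h1
      exact_mod_cast h2
    · apply Subtype.ext
      change (f' : L) * σ ((b : Fb F Kb) : L) = σ ((a : Fb F Kb) : L)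
      rw [hf, ← map_mul, ← hab]
      rfl
    · apply Subtype.ext
      change ((φ ⟨_, ha'⟩ : Kb) : L) = (c' : L) * ((φ ⟨_, hb'⟩ : Kb) : L)
      rw [ea, eb, hc, ← map_mul, hac]
      rfl

end Pool.Agent.H64.UN
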